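import Pool.Agent.H46.CH.DL
import Pool.Agent.H74.CH.CR

/-!
# From sequences of blocks (trees) to structures
-/

set_option autoImplicit false

namespace Pool.Agent.H74.CHD

open Classical Pool.Agent.H46.CH Pool.Agent.H74.CH
open Pool.Agent.H8.VR (C2)
open Pool.Agent.H8.JS (NTM Cfg Mv IsComp lang num)

theorem pf_TCR (hEX : T_EX) : T_TCR := by
  intro J _ M T p sd e v hrun hv0 hini
  have hG : ∀ t, ∃ G : Ob J → Ob J → Prop, t ≤ T → 0 < t → ∀ i, e (p t) = some i →
      if M.dir i = true then Gd G (v (p t)) (v t) (M.A i) (M.c i) else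
      Gd (fun x y => G y x) (v t) (v (p t)) (M.A i) (M.c i) := by
    intro t
    by_cases ht : t ≤ T ∧ 0 < t
    · obtain ⟨i, h0, h, -⟩ := hrun.step t ht.1 ht.2
      unfold AM.Rel at h
      by_cases hd : M.dir i = true
      · rw [if_pos hd] at h
        obtain ⟨G, hG⟩ := exG hEX _ _ _ _ h
        refine ⟨G, fun _ _ i' hi' => ?_⟩
        rw [h0, Option.some.injEq] at hi'
        subst hi'
        rw [if_pos hd]
        exact hG
      · rw [if_neg hd] at h
        obtain ⟨G, hG⟩ := exG hEX _ _ _ _ h
        refine ⟨fun x y => G y x, fun _ _ i' hi' => ?_⟩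
        rw [h0, Option.some.injEq] at hi'
        subst hi'
        rw [if_neg hd]
        exact hG
    · exact ⟨fun _ _ => False, fun h h' => absurd ⟨h, h'⟩ ht⟩
  choose G hG using hG
  obtain ⟨i₀, hi₀⟩ := hrun.root
  have hz : ∀ t ≤ T, t = 0 ∨ e t = none → ∀ o ∈ blk (v t), o = none := by
    intro t ht0 ht o ho
    cases o with
    | none => rfl
    | some q =>
      rw [some_mem] at ho
      rcases ht with rfl | ht
      · rw [hv0] at ho
        omega
      · rw [(hrun.leaf t ht0 ht).1] at ho
        omega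
  -- properties of the edges
  have hG0 : ∀ t ≤ T, 0 < t → ∀ x y, G t x y → x ∈ blk (v (p t)) ∧ y ∈ blk (v t) ∧
      (x ≠ none ∨ y ≠ none) := by
    intro t ht ht0 x y h
    obtain ⟨i, h0, -⟩ := hrun.step t ht ht0
    have h1 := hG t ht ht0 i h0
    by_cases hd : M.dir i = true
    · rw [if_pos hd] at h1
      obtain ⟨h2, h3, h4⟩ := h1.1 x y h
      exact ⟨h2, h3, Or.inr h4⟩
    · rw [if_neg hd] at h1
      obtain ⟨h2, h3, h4⟩ := h1.1 y x h
      exact ⟨h3, h2, Or.inl h4⟩
  let R : ℕ → un T v → un T v → Prop := fun i x y => match i with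
    | 0 => y.1.1 = x.1.1 ∨ (0 < y.1.1 ∧ p y.1.1 = x.1.1)
    | 1 => 0 < y.1.1 ∧ p y.1.1 = x.1.1 ∧ G y.1.1 x.1.2 y.1.2
    | _ => False
  let lab : un T v → M.Lb := fun x => (if x.1.1 = 0 then none else
    (e (p x.1.1)).map fun i => (i, sd x.1.1), e x.1.1, x.1.2.map Sigma.fst)
  have hb0 : ∀ x y, bt R x y 0 ↔ y.1.1 = x.1.1 ∨ (0 < y.1.1 ∧ p y.1.1 = x.1.1) :=
    fun _ _ => Iff.rfl
  have hb1 : ∀ x y, bt R x y 1 ↔ 0 < y.1.1 ∧ p y.1.1 = x.1.1 ∧ G y.1.1 x.1.2 y.1.2 :=
    fun _ _ => Iff.rfl
  have hl0 : ∀ x, x.1.1 = 0 → (lab x).1 = none := by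
    intro x hx
    change (if x.1.1 = 0 then none else _) = none
    rw [if_pos hx]
  have hl1 : ∀ x, 0 < x.1.1 → ∀ i, e (p x.1.1) = some i → (lab x).1 = some (i, sd x.1.1) := by
    intro x hx i hi
    change (if x.1.1 = 0 then none else (e (p x.1.1)).map fun i => (i, sd x.1.1)) = _
    rw [if_neg (by omega), hi]
    rfl
  have hl2 : ∀ x, (lab x).2.1 = e x.1.1 := fun _ => rfl
  have hl3 : ∀ x, (lab x).2.2 = (x.1.2.map Sigma.fst : Option J) := fun _ => rfl
  have hle : ∀ x : un T v, x.1.1 ≤ T := fun x => ((mem_un T v _).1 x.2).1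
  have hbl : ∀ x : un T v, x.1.2 ∈ blk (v x.1.1) := fun x => ((mem_un T v _).1 x.2).2
  have hmap : ∀ o : Ob J, (o.map Sigma.fst : Option J) = none ↔ o = none := by
    intro o
    cases o <;> simp
  clear_value R lab
  have hpn : ∀ (x : un T v) (D : M.Lb → (Fin 3 → Prop) → (Fin 3 → Prop) → Prop) (t : ℕ), t ≤ T →
      ∀ Q : Ob J → Prop, (∀ y : un T v, (y ≠ x ∧ D (lab y) (bt R x y) (bt R y x)) ↔
        y.1.1 = t ∧ Q y.1.2) → pn lab R D x = {o : Ob J | o ∈ blk (v t) ∧ Q o}.ncard := by
    intro x D t ht Q h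
    rw [← count T v t ht Q]
    unfold pn
    congr 1
    ext y
    exact h y
  have hpn0 : ∀ (x : un T v) (D : M.Lb → (Fin 3 → Prop) → (Fin 3 → Prop) → Prop),
      (∀ y : un T v, ¬ (y ≠ x ∧ D (lab y) (bt R x y) (bt R y x))) → pn lab R D x = 0 := by
    intro x D h
    unfold pn
    exact ncard_zero fun y hy => h y hy
  have hne : ∀ x y : un T v, x.1.1 ≠ y.1.1 → y ≠ x := by
    intro x y h h'
    exact h (by rw [h'])
  -- the block before a block
  have hpar : ∀ x y : un T v, 0 < y.1.1 → p y.1.1 = x.1.1 → x.1.1 < y.1.1 := by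
    intro x y h1 h2
    have := hrun.par y.1.1 h1
    omega
  have hch : ∀ x y : un T v, (bt R x y 0 ∧ ¬ bt R y x 0) ↔ (0 < y.1.1 ∧ p y.1.1 = x.1.1) := by
    intro x y
    rw [hb0, hb0]
    constructor
    · rintro ⟨h1, h2⟩
      rcases h1 with h1 | h1
      · exact absurd (Or.inl h1.symm) h2
      · exact h1
    · rintro ⟨h1, h2⟩
      have h3 := hpar x y h1 h2
      refine ⟨Or.inr ⟨h1, h2⟩, ?_⟩
      rintro (h4 | ⟨h4, h5⟩)
      · omega
      · have := hpar y x h4 h5
        omega
  have hsame : ∀ x y : un T v, (bt R x y 0 ∧ bt R y x 0) ↔ y.1.1 = x.1.1 := by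
    intro x y
    rw [hb0, hb0]
    constructor
    · rintro ⟨h1, h2⟩
      rcases h1 with h1 | ⟨h1, h3⟩
      · exact h1
      · rcases h2 with h2 | ⟨h2, h4⟩
        · exact h2.symm
        · have := hpar x y h1 h3
          have := hpar y x h2 h4
          omega
    · intro h
      exact ⟨Or.inl h, Or.inl h.symm⟩
  -- the number of heads of the child on one side
  have hhead : ∀ (x : un T v) (s : Bool),
      ((∃ t' ≤ T, 0 < t' ∧ p t' = x.1.1 ∧ sd t' = s) →
        ∃ t', (t' ≤ T ∧ 0 < t' ∧ p t' = x.1.1 ∧ sd t' = s) ∧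
          ∀ t'', (t'' ≤ T ∧ 0 < t'' ∧ p t'' = x.1.1 ∧ sd t'' = s) → t'' = t') →
      pn lab R (fun l' a b => a 0 ∧ ¬ b 0 ∧ l'.2.2 = none ∧ ∃ i, l'.1 = some (i, s)) x =
        if ∃ t' ≤ T, 0 < t' ∧ p t' = x.1.1 ∧ sd t' = s then 1 else 0 := by
    intro x s h
    have hkey : ∀ y : un T v, (y ≠ x ∧ bt R x y 0 ∧ ¬ bt R y x 0 ∧ (lab y).2.2 = none ∧
        ∃ i, (lab y).1 = some (i, s)) ↔ (0 < y.1.1 ∧ p y.1.1 = x.1.1 ∧ sd y.1.1 = s) ∧
          y.1.2 = none := by
      intro y
      rw [hl3, hmap]
      constructor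
      · rintro ⟨-, h1, h2, h3, i, h4⟩
        obtain ⟨h5, h6⟩ := (hch x y).1 ⟨h1, h2⟩
        obtain ⟨i', h7, -⟩ := hrun.step y.1.1 (hle y) h5
        rw [hl1 y h5 i' h7, Option.some.injEq, Prod.mk.injEq] at h4
        exact ⟨⟨h5, h6, h4.2⟩, h3⟩
      · rintro ⟨⟨h1, h2, h3⟩, h4⟩
        obtain ⟨h5, h6⟩ := (hch x y).2 ⟨h1, h2⟩
        obtain ⟨i', h7, -⟩ := hrun.step y.1.1 (hle y) h1
        refine ⟨hne _ _ (hpar x y h1 h2).ne, h5, h6, h4, i', ?_⟩
        rw [hl1 y h1 i' h7, h3]
    by_cases hex : ∃ t' ≤ T, 0 < t' ∧ p t' = x.1.1 ∧ sd t' = s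
    · rw [if_pos hex]
      obtain ⟨t', ht', hu⟩ := h hex
      rw [hpn x _ t' ht'.1 (fun o => o = none)]
      · apply ncard_sing (a := none)
        intro o
        constructor
        · exact fun ho => ho.2
        · rintro rfl
          exact ⟨none_mem _, rfl⟩
      · intro y
        refine (hkey y).trans ?_
        constructor
        · rintro ⟨h1, h2⟩
          exact ⟨hu _ ⟨hle y, h1⟩, h2⟩
        · rintro ⟨h1, h2⟩
          rw [h1]
          exact ⟨ht'.2, h2⟩
    · rw [if_neg hex]
      apply hpn0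
      intro y hy
      obtain ⟨h1, -⟩ := (hkey y).1 hy
      exact hex ⟨_, hle y, h1⟩
  -- outgoing edges on one side
  have hout : ∀ (x : un T v) (i : M.I) (s : Bool) (t' : ℕ), e x.1.1 = some i →
      (t' ≤ T ∧ 0 < t' ∧ p t' = x.1.1 ∧ sd t' = s) →
      (∀ t'', (t'' ≤ T ∧ 0 < t'' ∧ p t'' = x.1.1 ∧ sd t'' = s) → t'' = t') →
      ∀ pp ∈ M.outs i s (lab x).2.2,
        if pp.2.2 = true then pn lab R pp.1 x = pp.2.1 else pp.2.1 ≤ pn lab R pp.1 x := by
    intro x i s t' hi ht' hu pp hpp
    have hkey : ∀ y : un T v, (bt R x y 1 ∧ (lab y).1 = some (i, s)) ↔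
        y.1.1 = t' ∧ G t' x.1.2 y.1.2 := by
      intro y
      rw [hb1]
      constructor
      · rintro ⟨⟨h1, h2, h3⟩, h4⟩
        rw [hl1 y h1 i (by rw [h2]; exact hi), Option.some.injEq, Prod.mk.injEq] at h4
        have h5 := hu _ ⟨hle y, h1, h2, h4.2⟩
        rw [← h5]
        exact ⟨rfl, h3⟩
      · rintro ⟨h1, h2⟩
        rw [h1]
        refine ⟨⟨ht'.2.1, ht'.2.2.1, h2⟩, ?_⟩
        rw [hl1 y (by rw [h1]; exact ht'.2.1) i (by rw [h1, ht'.2.2.1]; exact hi), h1, ht'.2.2.2]
    have hlt : x.1.1 < t' := by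
      have := hrun.par t' ht'.2.1
      rw [ht'.2.2.1] at this
      exact this
    have hg := hG t' ht'.1 ht'.2.1 i (by rw [ht'.2.2.1]; exact hi)
    unfold BM.outs at hpp
    rw [ht'.2.2.1] at hg
    by_cases hd : M.dir i = true
    · rw [if_pos hd] at hpp hg
      rw [List.mem_cons] at hpp
      rcases hpp with rfl | hpp
      · simp only [if_true]
        apply hpn0
        rintro y ⟨-, h1, h2, h3⟩
        rw [hl3, hmap] at h3
        exact (hg.1 _ _ ((hkey y).1 ⟨h1, h2⟩).2).2.2 h3
      · obtain ⟨j, -, rfl⟩ := List.mem_map.1 hpp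
        simp only [if_true]
        rw [hpn x _ t' ht'.1 (fun o => G t' x.1.2 o ∧ (o.map Sigma.fst : Option J) = some j)]
        · rw [ncard_tok _ j (G t' x.1.2) (fun o ho => (hg.1 _ _ ho).2.1),
            hg.2.1 _ (hbl x) j, hl3]
          generalize (x.1.2.map Sigma.fst : Option J) = o
          cases o <;> rfl
        · intro y
          rw [hl3]
          constructor
          · rintro ⟨-, h1, h2, h3⟩
            obtain ⟨h4, h5⟩ := (hkey y).1 ⟨h1, h2⟩
            exact ⟨h4, h5, h3⟩
          · rintro ⟨h3, h4, h5⟩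
            obtain ⟨h6, h7⟩ := (hkey y).2 ⟨h3, h4⟩
            exact ⟨hne _ _ (by omega), h6, h7, h5⟩
    · rw [if_neg hd] at hpp hg
      rw [List.mem_singleton] at hpp
      subst hpp
      simp only [if_true]
      rw [hpn x _ t' ht'.1 (fun o => G t' x.1.2 o)]
      · rw [hl3]
        simp only [hmap]
        by_cases h3 : x.1.2 = none
        · rw [if_pos h3]
          exact ncard_zero fun o ho => (hg.1 _ _ ho.2).2.2 h3
        · rw [if_neg h3]
          obtain ⟨o, ho⟩ := hg.2.2.1 _ (hbl x) h3
          apply ncard_sing (a := o)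
          intro o'
          constructor
          · exact fun ho' => hg.2.2.2 _ _ _ ho'.2 ho
          · rintro rfl
            exact ⟨(hg.1 _ _ ho).1, ho⟩
      · intro y
        constructor
        · rintro ⟨-, h3, h4⟩
          exact (hkey y).1 ⟨h3, h4⟩
        · intro h
          obtain ⟨h3, h4⟩ := (hkey y).2 h
          exact ⟨hne _ _ (by omega), h3, h4⟩
  refine ⟨un T v, inferInstance, R, lab, ?_, ⟨?_, ?_, ?_⟩, ?_⟩
  · refine ⟨T, fun x => x.1.1, p, fun i => ⟨?_, fun hi => ?_⟩, hrun.par, fun x y => hb0 x y⟩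
    · rintro ⟨x, rfl⟩
      exact hle x
    · exact ⟨⟨⟨i, none⟩, (mem_un T v _).2 ⟨hi, none_mem _⟩⟩, rfl⟩
  · intro x
    refine ⟨fun h => ?_, fun h => ?_, fun i h => ?_⟩
    · have h0 : x.1.1 = 0 := by
        by_contra h1
        obtain ⟨i, h2, -⟩ := hrun.step x.1.1 (hle x) (by omega)
        rw [hl1 x (by omega) i h2] at h
        exact absurd h (by simp)
      refine ⟨?_, i₀, ?_, hini _ hi₀⟩
      · rw [hl3, hmap]
        exact hz _ (hle x) (Or.inl h0) _ (hbl x)
      · rw [hl2, h0, hi₀]
    · rw [hl2] at h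
      have h0 : 0 < x.1.1 := by
        rcases Nat.eq_zero_or_pos x.1.1 with h1 | h1
        · rw [h1, hi₀] at h
          exact absurd h (by simp)
        · exact h1
      obtain ⟨-, h1, i, h2, h3, h4⟩ := hrun.leaf _ (hle x) h
      refine ⟨?_, i, ?_, h3, h4⟩
      · rw [hl3, hmap]
        exact hz _ (hle x) (Or.inr h) _ (hbl x)
      · rw [hl1 x h0 i h2, h1]
    · rcases Nat.eq_zero_or_pos x.1.1 with h1 | h1
      · rw [hl0 x h1] at h
        exact absurd h (by simp)
      · obtain ⟨i', h2, -, h3, -⟩ := hrun.step x.1.1 (hle x) h1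
        rw [hl1 x h1 i' h2, Option.some.injEq, Prod.mk.injEq] at h
        rw [← h.1]
        exact h3 h.2
  · intro x y hxy
    refine ⟨fun ha hb => ?_, fun ha hb => ?_, fun ha => ?_⟩
    · have h0 := (hsame x y).1 ⟨ha, hb⟩
      refine ⟨?_, by rw [hl2, hl2, h0]⟩
      rcases Nat.eq_zero_or_pos x.1.1 with h1 | h1
      · rw [hl0 x h1, hl0 y (h0.trans h1)]
      · obtain ⟨i, h2, -⟩ := hrun.step x.1.1 (hle x) h1
        rw [hl1 x h1 i h2, hl1 y (by rw [h0]; exact h1) i (by rw [h0]; exact h2), h0]
    · obtain ⟨h1, h2⟩ := (hch x y).1 ⟨ha, hb⟩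
      obtain ⟨i, h3, -, -, h4⟩ := hrun.step y.1.1 (hle y) h1
      refine ⟨i, sd y.1.1, ?_, hl1 y h1 i h3, fun i' hi' => ?_⟩
      · rw [hl2, ← h2, h3]
      · rw [hl2] at hi'
        exact h4 i' hi'
    · rw [hb1] at ha
      obtain ⟨h0, h1, h2⟩ := ha
      obtain ⟨-, -, h5⟩ := hG0 _ (hle y) h0 _ _ h2
      obtain ⟨h3, h4⟩ := (hch x y).2 ⟨h0, h1⟩
      refine ⟨h3, h4, ?_⟩
      rw [hl3, hl3, hmap, hmap]
      rintro ⟨h6, h7⟩
      rcases h5 with h5 | h5
      · exact h5 h6
      · exact h5 h7
  · intro x q hq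
    have hq' : q ∈ [((fun l' a b => a 0 ∧ b 0 ∧ l'.2.2 = none :
          M.Lb → (Fin 3 → Prop) → (Fin 3 → Prop) → Prop),
          if (lab x).2.2 = none then 0 else 1, true),
        (fun l' a b => a 0 ∧ ¬ b 0 ∧ l'.2.2 = none ∧ ∃ i, l'.1 = some (i, false),
          if (lab x).2.1 = none then 0 else 1, true),
        (fun l' a b => a 0 ∧ ¬ b 0 ∧ l'.2.2 = none ∧ ∃ i, l'.1 = some (i, true),
          if ∃ i, (lab x).2.1 = some i ∧ M.ar i = true then 1 else 0, true),
        (fun _ a b => b 0 ∧ ¬ a 0, if (lab x).1 = none then 0 else 1,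
          if (lab x).1 = none then true else false)] ++ M.outc (lab x) ++ M.inc (lab x) := hq
    rw [List.mem_append, List.mem_append] at hq'
    rcases hq' with (hq' | hq') | hq'
    · simp only [List.mem_cons, List.not_mem_nil, or_false] at hq'
      rcases hq' with rfl | rfl | rfl | rfl
      · -- the heads
        show (if true = true then _ else _)
        rw [if_pos rfl]
        show pn lab R _ x = if (lab x).2.2 = none then 0 else 1
        rw [hpn x _ x.1.1 (hle x) (fun o => o = none ∧ x.1.2 ≠ none)]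
        · rw [hl3]
          simp only [hmap]
          by_cases h : x.1.2 = none
          · rw [if_pos h]
            exact ncard_zero fun o ho => ho.2.2 h
          · rw [if_neg h]
            apply ncard_sing (a := none)
            intro o
            constructor
            · exact fun ho => ho.2.1
            · rintro rfl
              exact ⟨none_mem _, rfl, h⟩
        · intro y
          show (y ≠ x ∧ (bt R x y 0 ∧ bt R y x 0 ∧ (lab y).2.2 = none)) ↔ _
          rw [hl3, hmap]
          constructor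
          · rintro ⟨h1, h2, h3, h4⟩
            have h5 := (hsame x y).1 ⟨h2, h3⟩
            refine ⟨h5, h4, fun h6 => h1 ?_⟩
            apply Subtype.ext
            exact Sigma.ext h5 (by rw [h4, h6])
          · rintro ⟨h1, h2, h3⟩
            obtain ⟨h4, h5⟩ := (hsame x y).2 h1
            exact ⟨fun h4 => h3 (by rw [← h4]; exact h2), h4, h5, h2⟩
      · -- the left child
        show (if true = true then _ else _)
        rw [if_pos rfl]
        show pn lab R _ x = if (lab x).2.1 = none then 0 else 1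
        rw [hhead x false, hl2]
        · by_cases h : e x.1.1 = none
          · rw [if_pos h, if_neg]
            rintro ⟨t', h1, h2, h3, -⟩
            obtain ⟨i, h4, -⟩ := hrun.step t' h1 h2
            rw [h3, h] at h4
            exact absurd h4 (by simp)
          · rw [if_neg h, if_pos]
            obtain ⟨i, hi⟩ := Option.ne_none_iff_exists'.1 h
            obtain ⟨t', h1, -⟩ := hrun.chl _ (hle x) i hi
            exact ⟨t', h1⟩
        · rintro ⟨t', h1, h2, h3, -⟩
          obtain ⟨i, h4, -⟩ := hrun.step t' h1 h2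
          rw [h3] at h4
          exact hrun.chl _ (hle x) i h4
      · -- the right child
        show (if true = true then _ else _)
        rw [if_pos rfl]
        show pn lab R _ x = if ∃ i, (lab x).2.1 = some i ∧ M.ar i = true then 1 else 0
        rw [hhead x true, hl2]
        · by_cases h : ∃ i, e x.1.1 = some i ∧ M.ar i = true
          · rw [if_pos h, if_pos]
            obtain ⟨i, hi, ha⟩ := h
            obtain ⟨t', h1, -⟩ := hrun.chr _ (hle x) i hi ha
            exact ⟨t', h1⟩
          · rw [if_neg h, if_neg]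
            rintro ⟨t', h1, h2, h3, h5⟩
            obtain ⟨i, h4, -, h6, -⟩ := hrun.step t' h1 h2
            rw [h3] at h4
            exact h ⟨i, h4, h6 h5⟩
        · rintro ⟨t', h1, h2, h3, h5⟩
          obtain ⟨i, h4, -, h6, -⟩ := hrun.step t' h1 h2
          rw [h3] at h4
          exact hrun.chr _ (hle x) i h4 (h6 h5)
      · -- the block before
        rcases Nat.eq_zero_or_pos x.1.1 with h | h
        · have h1 := hl0 x h
          simp only [h1, if_true]
          apply hpn0
          rintro y ⟨-, h2, h3⟩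
          obtain ⟨h4, -⟩ := (hch y x).1 ⟨h2, h3⟩
          omega
        · obtain ⟨i, h0, -⟩ := hrun.step x.1.1 (hle x) h
          have h1 : (lab x).1 ≠ none := by rw [hl1 x h i h0]; simp
          have h2 := hle x
          have h6 := hrun.par x.1.1 h
          simp only [h1, if_false, Bool.false_eq_true]
          rw [hpn x _ (p x.1.1) (by omega) (fun _ => True)]
          · have h3 : {o : Ob J | o ∈ blk (v (p x.1.1)) ∧ True} =
                ((blk (v (p x.1.1)) : Finset (Ob J)) : Set (Ob J)) := by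
              ext o
              simp
            rw [h3, Set.ncard_coe_finset, card_blk]
            omega
          · intro y
            constructor
            · rintro ⟨h3, h4, h5⟩
              obtain ⟨-, h7⟩ := (hch y x).1 ⟨h4, h5⟩
              exact ⟨h7.symm, trivial⟩
            · rintro ⟨h3, -⟩
              obtain ⟨h7, h8⟩ := (hch y x).2 ⟨h, h3.symm⟩
              exact ⟨hne _ _ (by omega), h7, h8⟩
    · -- outgoing edges
      unfold BM.outc at hq'
      have h2 := hle x
      cases h : e x.1.1 with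
      | none =>
        have h1 : (lab x).2.1 = none := by rw [hl2, h]
        simp only [h1, List.mem_singleton] at hq'
        subst hq'
        simp only [if_true]
        apply hpn0
        rintro y ⟨-, hy⟩
        rw [hb1] at hy
        obtain ⟨i, h4, -⟩ := hrun.step y.1.1 (hle y) hy.1
        rw [hy.2.1, h] at h4
        exact absurd h4 (by simp)
      | some i =>
        have h1 : (lab x).2.1 = some i := by rw [hl2, h]
        simp only [h1] at hq'
        rw [List.mem_append] at hq'
        rcases hq' with hq' | hq'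
        · obtain ⟨t', ht', hu⟩ := hrun.chl _ (hle x) i h
          exact hout x i false t' h ht' hu q hq'
        · by_cases ha : M.ar i = true
          · rw [if_pos ha] at hq'
            obtain ⟨t', ht', hu⟩ := hrun.chr _ (hle x) i h ha
            exact hout x i true t' h ht' hu q hq'
          · rw [if_neg ha] at hq'
            exact absurd hq' (by simp)
    · -- incoming edges
      unfold BM.inc at hq'
      have h2 := hle x
      rcases Nat.eq_zero_or_pos x.1.1 with h | h
      · have h1 := hl0 x h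
        simp only [h1, List.mem_singleton] at hq'
        subst hq'
        simp only [if_true]
        apply hpn0
        rintro y ⟨-, hy⟩
        rw [hb1] at hy
        omega
      · obtain ⟨i, h0, -⟩ := hrun.step x.1.1 (hle x) h
        have h1 := hl1 x h i h0
        simp only [h1] at hq'
        have hg := hG x.1.1 (hle x) h i h0
        have hbx := hbl x
        have hpl := hrun.par x.1.1 h
        by_cases hd : M.dir i = true
        · rw [if_pos hd] at hq' hg
          rw [List.mem_singleton] at hq'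
          subst hq'
          simp only [if_true]
          rw [hpn x _ (p x.1.1) (by omega) (fun o => G x.1.1 o x.1.2)]
          · rw [hl3]
            simp only [hmap]
            by_cases h3 : x.1.2 = none
            · rw [if_pos h3]
              exact ncard_zero fun o ho => (hg.1 _ _ ho.2).2.2 h3
            · rw [if_neg h3]
              obtain ⟨o, ho⟩ := hg.2.2.1 _ hbx h3
              apply ncard_sing (a := o)
              intro o'
              constructor
              · exact fun ho' => hg.2.2.2 _ _ _ ho'.2 ho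
              · rintro rfl
                exact ⟨(hg.1 _ _ ho).1, ho⟩
          · intro y
            rw [hb1]
            constructor
            · rintro ⟨-, -, h3, h4⟩
              exact ⟨h3.symm, h4⟩
            · rintro ⟨h3, h4⟩
              exact ⟨hne _ _ (by omega), h, h3.symm, h4⟩
        · rw [if_neg hd] at hq' hg
          rw [List.mem_cons] at hq'
          rcases hq' with rfl | hq'
          · simp only [if_true]
            apply hpn0
            rintro y ⟨-, hy, hy'⟩
            rw [hb1] at hy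
            rw [hl3, hmap] at hy'
            exact (hg.1 _ _ hy.2.2).2.2 hy'
          · obtain ⟨j, -, rfl⟩ := List.mem_map.1 hq'
            simp only [if_true]
            rw [hpn x _ (p x.1.1) (by omega)
              (fun o => G x.1.1 o x.1.2 ∧ (o.map Sigma.fst : Option J) = some j)]
            · rw [ncard_tok _ j (fun o => G x.1.1 o x.1.2) (fun o ho => (hg.1 _ _ ho).2.1),
                hg.2.1 _ hbx j, hl3]
              generalize (x.1.2.map Sigma.fst : Option J) = o
              cases o <;> rfl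
            · intro y
              rw [hb1, hl3]
              constructor
              · rintro ⟨-, ⟨-, h3, h4⟩, h5⟩
                exact ⟨h3.symm, h4, h5⟩
              · rintro ⟨h3, h4, h5⟩
                exact ⟨hne _ _ (by omega), ⟨h, h3.symm, h4⟩, h5⟩
  · intro b
    refine Eq.trans ?_ (count_stage T v (fun t => M.sto (e (p t)) (e t)) b)
    congr 1
    ext x
    have h1 : M.stl (lab x) = M.sto (e (p x.1.1)) (e x.1.1) := by
      unfold BM.stl
      rw [hl2]
      rcases Nat.eq_zero_or_pos x.1.1 with h | h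
      · rw [h, hi₀]
        rfl
      · obtain ⟨i, h0, -⟩ := hrun.step x.1.1 (hle x) h
        rw [hl1 x h i h0, h0]
        rfl
    simp only [Set.mem_ofPred_eq, h1]

end Pool.Agent.H74.CHD
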